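import Mathlib
import Pool.Agent.H29.Twist

open Matrix Finset Pool.Agent.H29.Twist

namespace Pool.Agent.Results.MP_725651_al.Cover

section
variable {F : Type} [Field F] [Fintype F] {n : ℕ}

open Classical in
lemma orth (ψ : AddChar F ℂ) (hψ : ψ ≠ 0) (z : Mat n F) :
    ∑ b : Mat n F, ψ (trace (b * z)) = if z = 0 then (Fintype.card (Mat n F) : ℂ) else 0 := by
  split_ifs with hz
  · simp [hz]
  · let χ : AddChar (Mat n F) ℂ :=
      { toFun := fun b => ψ (trace (b * z))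
        map_zero_eq_one' := by simp
        map_add_eq_mul' := fun a b => by rw [add_mul, trace_add, AddChar.map_add_eq_mul] }
    refine (AddChar.sum_eq_zero_iff_ne_zero (ψ := χ)).2 fun h0 => hψ ?_
    obtain ⟨p, r, h⟩ : ∃ p r, z p r ≠ 0 := by
      by_contra h; push Not at h; exact hz (by ext p r; exact h p r)
    ext c
    have : χ (single r p (c / z p r)) = 1 := by rw [h0]; rfl
    have e : trace (single r p (c / z p r) * z) = c := by
      rw [trace_single_mul]; simp [h]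
    change ψ (trace _) = 1 at this
    rw [e] at this
    exact this

noncomputable def hat (ψ : AddChar F ℂ) (X : Finset (Mat n F)) (M : Mat n F) : ℂ :=
  ∑ x ∈ X, ψ (trace (M * x))

open Classical in
lemma mom2 (ψ : AddChar F ℂ) (hψ : ψ ≠ 0) (X : Finset (Mat n F)) (M : Mat n F) :
    ∑ p : Mat n F × Mat n F, ‖hat ψ X (p.2 * M * p.1)‖ ^ 2 = Fintype.card (Mat n F) *
      ∑ x ∈ X, ∑ x' ∈ X, ((univ.filter fun a : Mat n F => M * a * (x - x') = 0).card : ℝ) := by
  have h1 : ∀ N : Mat n F, ((‖hat ψ X N‖ ^ 2 : ℝ) : ℂ) =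
      ∑ x ∈ X, ∑ x' ∈ X, ψ (trace (N * (x - x'))) := by
    intro N
    rw [← Complex.normSq_eq_norm_sq, ← Complex.mul_conj, hat, map_sum, sum_mul_sum]
    refine sum_congr rfl fun x _ => sum_congr rfl fun x' _ => ?_
    rw [← AddChar.map_neg_eq_conj, ← AddChar.map_add_eq_mul, mul_sub, trace_sub, sub_eq_add_neg]
  apply Complex.ofReal_injective
  rw [Complex.ofReal_sum]
  simp_rw [h1]
  rw [Fintype.sum_prod_type]
  push_cast
  have h2 : ∀ a : Mat n F, ∑ b : Mat n F, ∑ x ∈ X, ∑ x' ∈ X, ψ (trace (b * M * a * (x - x'))) =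
      ∑ x ∈ X, ∑ x' ∈ X, if M * a * (x - x') = 0 then (Fintype.card (Mat n F) : ℂ) else 0 := by
    intro a
    rw [sum_comm]
    refine sum_congr rfl fun x _ => ?_
    rw [sum_comm]
    refine sum_congr rfl fun x' _ => ?_
    rw [← orth ψ hψ]
    simp only [mul_assoc]
  simp_rw [h2]
  rw [sum_comm, mul_sum]
  refine sum_congr rfl fun x _ => ?_
  rw [sum_comm, mul_sum]
  refine sum_congr rfl fun x' _ => ?_
  rw [← sum_filter, sum_const, nsmul_eq_mul, mul_comm]

open Classical in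
lemma mom2' (ψ : AddChar F ℂ) (hψ : ψ ≠ 0) (X : Finset (Mat n F)) (M : Mat n F) (s : ℕ) (Q : ℝ)
    (hQ : 0 < Q) (h1 : (Fintype.card F : ℝ) ^ (2 * n * s) * Q ^ M.rank ≤ X.card)
    (h2 : Q ≤ (Fintype.card F : ℝ) ^ (s + 1)) :
    (∑ p : Mat n F × Mat n F, ‖hat ψ X (p.2 * M * p.1)‖ ^ 2) * Q ^ M.rank ≤
      2 * (Fintype.card (Mat n F) : ℝ) ^ 2 * (X.card : ℝ) ^ 2 := by
  rw [mom2 ψ hψ]
  set N : ℝ := (Fintype.card (Mat n F) : ℝ) with hN
  have hN0 : 0 ≤ N := Nat.cast_nonneg _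
  have hq : 1 ≤ Fintype.card F := Fintype.card_pos
  have a1 : ∀ z : Mat n F, ((univ.filter fun a : Mat n F => M * a * z = 0).card : ℝ) * Q ^ M.rank
      ≤ (if z.rank ≤ s then N * Q ^ M.rank else 0) + N := by
    intro z
    split_ifs with hz
    · have : ((univ.filter fun a : Mat n F => M * a * z = 0).card : ℝ) ≤ N := by
        rw [hN]; exact_mod_cast card_le_univ _
      have := mul_le_mul_of_nonneg_right this (pow_pos hQ M.rank).le
      linarith
    · have k : ((univ.filter fun a : Mat n F => M * a * z = 0).card : ℝ) *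
          (Fintype.card F : ℝ) ^ (M.rank * z.rank) ≤ N := by rw [hN]; exact_mod_cast ker M z
      rw [zero_add]
      refine le_trans (mul_le_mul_of_nonneg_left ?_ (Nat.cast_nonneg _)) k
      rw [mul_comm, pow_mul]
      refine pow_le_pow_left₀ hQ.le (h2.trans (pow_le_pow_right₀ (by exact_mod_cast hq) ?_)) _
      omega
  have a2 : ∀ x : Mat n F, (∑ x' ∈ X,
      ((univ.filter fun a : Mat n F => M * a * (x - x') = 0).card : ℝ)) * Q ^ M.rank ≤
      2 * N * X.card := by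
    intro x
    rw [sum_mul]
    refine (sum_le_sum fun x' _ => a1 (x - x')).trans ?_
    rw [sum_add_distrib, ← sum_filter, sum_const, sum_const, nsmul_eq_mul, nsmul_eq_mul]
    have b1 : (X.filter fun x' => (x - x').rank ≤ s).card ≤ Fintype.card F ^ (2 * n * s) := by
      refine le_trans (card_le_card_of_injOn (fun x' => x - x') (fun x' hx' => ?_)
        (fun _ _ _ _ e => sub_right_injective e)) (cnt s)
      exact mem_coe.2 (mem_filter.2 ⟨mem_univ _, (mem_filter.1 hx').2⟩)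
    have b2 : ((X.filter fun x' => (x - x').rank ≤ s).card : ℝ) * Q ^ M.rank ≤ X.card :=
      le_trans (mul_le_mul_of_nonneg_right (by exact_mod_cast b1) (pow_pos hQ _).le) h1
    nlinarith [mul_le_mul_of_nonneg_left b2 hN0]
  rw [mul_assoc, sum_mul]
  refine (mul_le_mul_of_nonneg_left (sum_le_sum fun x _ => a2 x) hN0).trans (le_of_eq ?_)
  rw [sum_const, nsmul_eq_mul]; ring

open Classical in
lemma mom1 (hn : 1 ≤ n) (ψ : AddChar F ℂ) (hψ : ψ ≠ 0) (X : Finset (Mat n F)) (M : Mat n F)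
    (hM : M ≠ 0) (s : ℕ) (t : ℝ) (ht0 : 0 < t) (ht : 32 ≤ t ^ 2)
    (h1 : (Fintype.card F : ℝ) ^ (2 * n * s) * (t ^ 4) ^ M.rank ≤ X.card)
    (h2 : t ^ 4 ≤ (Fintype.card F : ℝ) ^ (s + 1)) :
    ∑ p : (Mat n F)ˣ × (Mat n F)ˣ, ‖hat ψ X (p.2.val * M * p.1.val)‖ ≤
      Fintype.card ((Mat n F)ˣ × (Mat n F)ˣ) * X.card * t⁻¹ ^ M.rank := by
  have a1 := mom2' ψ hψ X M s (t ^ 4) (by positivity) h1 h2
  have a2 : ∑ p : (Mat n F)ˣ × (Mat n F)ˣ, ‖hat ψ X (p.2.val * M * p.1.val)‖ ^ 2 ≤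
      ∑ p : Mat n F × Mat n F, ‖hat ψ X (p.2 * M * p.1)‖ ^ 2 := by
    have hi : Function.Injective
        fun p : (Mat n F)ˣ × (Mat n F)ˣ => ((p.1.val, p.2.val) : Mat n F × Mat n F) :=
      fun p p' e => Prod.ext (Units.ext (congrArg Prod.fst e)) (Units.ext (congrArg Prod.snd e))
    have := sum_le_sum_of_subset_of_nonneg (subset_univ (univ.map ⟨_, hi⟩))
      (f := fun p : Mat n F × Mat n F => ‖hat ψ X (p.2 * M * p.1)‖ ^ 2) fun _ _ _ => by positivity
    rwa [sum_map] at this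
  have g := gl (F := F) hn
  rw [Fintype.card_prod, Nat.cast_mul]
  set G : ℝ := (Fintype.card (Mat n F)ˣ : ℝ) with hG
  set u := t ^ M.rank with hu
  have hu0 : 0 < u := by positivity
  have hu2 : 32 ≤ u ^ 2 := by
    rw [hu, ← pow_mul, mul_comm, pow_mul]
    exact ht.trans (le_self_pow₀ (by linarith) (rank_pos hM).ne')
  have hX : (0 : ℝ) < X.card := lt_of_lt_of_le (by
    have : (0 : ℝ) < Fintype.card F := by exact_mod_cast Fintype.card_pos
    positivity) h1
  have e4 : (t ^ 4) ^ M.rank = u ^ 2 * u ^ 2 := by rw [hu]; ring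
  rw [e4] at a1
  have hS0 : 0 ≤ ∑ p : (Mat n F)ˣ × (Mat n F)ˣ, ‖hat ψ X (p.2.val * M * p.1.val)‖ ^ 2 := by
    positivity
  have a3 : (∑ p : (Mat n F)ˣ × (Mat n F)ˣ, ‖hat ψ X (p.2.val * M * p.1.val)‖ ^ 2) * u ^ 2 ≤
      G * G * (X.card : ℝ) ^ 2 := by
    have b1 : (Fintype.card (Mat n F) : ℝ) ^ 2 ≤ (4 * G) ^ 2 :=
      pow_le_pow_left₀ (Nat.cast_nonneg _) g 2
    have b2 := mul_le_mul_of_nonneg_right a2 (by positivity : 0 ≤ u ^ 2 * u ^ 2)
    have b3 := mul_le_mul_of_nonneg_left hu2 (mul_nonneg hS0 (sq_nonneg u))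
    have b4 := mul_le_mul_of_nonneg_right b1 (sq_nonneg (X.card : ℝ))
    nlinarith
  have a4 : ∀ y : ℝ, y * (2 * u * X.card) ≤ y ^ 2 * u ^ 2 + (X.card : ℝ) ^ 2 := fun y => by
    nlinarith [sq_nonneg (y * u - X.card)]
  have a5 := sum_le_sum fun (p : (Mat n F)ˣ × (Mat n F)ˣ) (_ : p ∈ univ) =>
    a4 ‖hat ψ X (p.2.val * M * p.1.val)‖
  rw [← sum_mul, sum_add_distrib, ← sum_mul, sum_const, card_univ, Fintype.card_prod, nsmul_eq_mul,
    Nat.cast_mul, ← hG] at a5
  rw [inv_pow, ← hu, ← div_eq_mul_inv, le_div_iff₀ hu0]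
  refine le_of_mul_le_mul_right ?_ (by positivity : (0 : ℝ) < 2 * X.card)
  nlinarith

open Classical in
lemma geo (hn : 1 ≤ n) (v : ℝ) (hv0 : 0 ≤ v) (hv : v * (Fintype.card F : ℝ) ^ (4 * n) ≤ 1) :
    ∑ M ∈ univ.filter (fun M : Mat n F => M ≠ 0), v ^ M.rank < 1 := by
  have hq : (2 : ℝ) ≤ Fintype.card F := by exact_mod_cast Fintype.one_lt_card
  have h4 : (Fintype.card F : ℝ) ^ (2 * n) * v ≤ 1 / 4 := by
    have b1 : (4 : ℝ) ≤ (Fintype.card F : ℝ) ^ (2 * n) := by
      rw [pow_mul]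
      exact le_trans (by nlinarith) (le_self_pow₀ (by nlinarith) (by omega))
    have : (Fintype.card F : ℝ) ^ (4 * n) = (Fintype.card F : ℝ) ^ (2 * n) *
      (Fintype.card F : ℝ) ^ (2 * n) := by ring
    rw [this] at hv
    nlinarith [mul_nonneg hv0 (by positivity : (0 : ℝ) ≤ (Fintype.card F : ℝ) ^ (2 * n))]
  rw [← sum_fiberwise_of_maps_to (t := range n) (g := fun M : Mat n F => M.rank - 1)
    (fun M hM => by
      have := rank_pos (mem_filter.1 hM).2
      have h2 : M.rank ≤ n := by simpa using M.rank_le_card_width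
      exact mem_range.2 (by omega))]
  have a1 : ∀ r ∈ range n, ∑ M ∈ (univ.filter (fun M : Mat n F => M ≠ 0)).filter
      (fun M => M.rank - 1 = r), v ^ M.rank ≤ (1 / 4 : ℝ) ^ (r + 1) := by
    intro r _
    have b1 : ∀ M ∈ (univ.filter (fun M : Mat n F => M ≠ 0)).filter (fun M => M.rank - 1 = r),
        M.rank = r + 1 := fun M hM => by
      have := rank_pos (mem_filter.1 (mem_filter.1 hM).1).2
      have := (mem_filter.1 hM).2
      omega
    rw [sum_congr rfl fun M hM => by rw [b1 M hM], sum_const, nsmul_eq_mul]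
    have b2 := (card_le_card fun M hM => mem_filter.2 ⟨mem_univ M, (b1 M hM).le⟩).trans
      (cnt (F := F) (n := n) (r + 1))
    refine le_trans (mul_le_mul_of_nonneg_right (Nat.cast_le.2 b2) (pow_nonneg hv0 _)) ?_
    push_cast
    rw [pow_mul, ← mul_pow]
    exact pow_le_pow_left₀ (by positivity) h4 _
  refine (sum_le_sum a1).trans_lt ?_
  have : ∀ k, ∑ r ∈ range k, (1 / 4 : ℝ) ^ (r + 1) = (1 - (1 / 4) ^ k) / 3 := fun k => by
    induction k with
    | zero => simp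
    | succ k ih => rw [sum_range_succ, ih]; ring
  rw [this]
  have : (0 : ℝ) < (1 / 4) ^ n := by positivity
  linarith

open Classical in
lemma big (hn : 1 ≤ n) (μ : ℕ) (X : Fin μ → Finset (Mat n F)) (s : ℕ) (t : ℝ) (ht0 : 0 < t)
    (ht : 32 ≤ t ^ 2) (h1 : ∀ i, (Fintype.card F : ℝ) ^ (2 * n * s) * (t ^ 4) ^ n ≤ (X i).card)
    (h2 : t ^ 4 ≤ (Fintype.card F : ℝ) ^ (s + 1)) (h3 : (Fintype.card F : ℝ) ^ (4 * n) ≤ t ^ μ) :
    ∃ a b, SS (fun i => (X i : Set (Mat n F))) a b = Set.univ := by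
  obtain ⟨ψ, hψ1⟩ := (AddChar.exists_apply_ne_zero (a := (1 : F))).2 one_ne_zero
  have hψ : ψ ≠ 0 := fun h => hψ1 (by rw [h]; rfl)
  have hq : (0 : ℝ) < Fintype.card F := by exact_mod_cast Fintype.card_pos
  have hP : 0 < ∏ i, ((X i).card : ℝ) := prod_pos fun i _ => lt_of_lt_of_le (by positivity) (h1 i)
  have t1 : 1 ≤ t ^ 4 := by nlinarith
  have a1 : ∑ ω : Fin μ → (Mat n F)ˣ × (Mat n F)ˣ, ∑ M ∈ univ.filter (fun M : Mat n F => M ≠ 0),
      ∏ i, ‖hat ψ (X i) ((ω i).2.val * M * (ω i).1.val)‖ <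
      ∑ _ω : Fin μ → (Mat n F)ˣ × (Mat n F)ˣ, ∏ i, ((X i).card : ℝ) := by
    rw [sum_comm, sum_const, card_univ, nsmul_eq_mul]
    have b1 : ∀ M ∈ univ.filter (fun M : Mat n F => M ≠ 0),
        ∑ ω : Fin μ → (Mat n F)ˣ × (Mat n F)ˣ, ∏ i, ‖hat ψ (X i) ((ω i).2.val * M * (ω i).1.val)‖ ≤
        (Fintype.card (Fin μ → (Mat n F)ˣ × (Mat n F)ˣ) * ∏ i, ((X i).card : ℝ)) *
          (t⁻¹ ^ μ) ^ M.rank := by
      intro M hM
      rw [← Fintype.piFinset_univ, ← prod_univ_sum (fun _ => univ)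
        fun i (p : (Mat n F)ˣ × (Mat n F)ˣ) => ‖hat ψ (X i) (p.2.val * M * p.1.val)‖]
      have hr : M.rank ≤ n := by simpa using M.rank_le_card_width
      refine (prod_le_prod (fun i _ => by positivity) fun i _ => mom1 hn ψ hψ (X i) M
        (mem_filter.1 hM).2 s t ht0 ht (le_trans (mul_le_mul_of_nonneg_left
          (pow_le_pow_right₀ t1 hr) (by positivity)) (h1 i)) h2).trans (le_of_eq ?_)
      rw [prod_mul_distrib, prod_mul_distrib, prod_const, prod_const, card_univ, Fintype.card_fin,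
        Fintype.card_fun, Fintype.card_fin, Nat.cast_pow]
      ring
    refine (sum_le_sum b1).trans_lt ?_
    rw [← mul_sum]
    refine mul_lt_of_lt_one_right (mul_pos (by exact_mod_cast Fintype.card_pos) hP)
      (geo hn _ (by positivity) ?_)
    rw [inv_pow, inv_mul_le_iff₀ (by positivity), mul_one]
    exact h3
  obtain ⟨ω, -, hω⟩ := exists_lt_of_sum_lt a1
  refine ⟨fun i => (ω i).1, fun i => (ω i).2, Set.eq_univ_of_forall fun y => ?_⟩
  by_contra hy
  have c1 : ∑ x ∈ Fintype.piFinset X, ∑ M : Mat n F,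
      ψ (trace (M * (∑ i, (ω i).1.val * x i * (ω i).2.val - y))) = 0 := by
    refine sum_eq_zero fun x hx => ?_
    rw [orth ψ hψ, if_neg]
    exact fun h => hy ⟨x, fun i => Fintype.mem_piFinset.1 hx i, sub_eq_zero.1 h⟩
  have c2 : ∀ M : Mat n F, ∑ x ∈ Fintype.piFinset X,
      ψ (trace (M * (∑ i, (ω i).1.val * x i * (ω i).2.val - y))) =
      (∏ i, hat ψ (X i) ((ω i).2.val * M * (ω i).1.val)) * ψ (-trace (M * y)) := by
    intro M
    unfold hat
    rw [prod_univ_sum, sum_mul]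
    refine sum_congr rfl fun x _ => ?_
    rw [mul_sub, trace_sub, sub_eq_add_neg, AddChar.map_add_eq_mul, mul_sum, trace_sum]
    congr 1
    have hm : ∀ (s : Finset (Fin μ)) (f : Fin μ → F), ψ (∑ i ∈ s, f i) = ∏ i ∈ s, ψ (f i) := by
      intro s f
      induction s using Finset.induction_on with
      | empty => simp
      | insert a s ha ih => rw [sum_insert ha, prod_insert ha, AddChar.map_add_eq_mul, ih]
    rw [hm]
    refine prod_congr rfl fun i _ => ?_
    rw [← mul_assoc, trace_mul_comm]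
    simp only [mul_assoc]
  rw [sum_comm] at c1
  simp_rw [c2] at c1
  rw [← sum_filter_add_sum_filter_not univ (fun M : Mat n F => M ≠ 0)] at c1
  have c3 : univ.filter (fun M : Mat n F => ¬ M ≠ 0) = {0} := by ext; simp
  rw [c3, sum_singleton] at c1
  have c4 : (∏ i, hat ψ (X i) ((ω i).2.val * 0 * (ω i).1.val)) * ψ (-trace ((0 : Mat n F) * y)) =
      ((∏ i, ((X i).card : ℝ) : ℝ) : ℂ) := by simp [hat]
  rw [c4] at c1
  have c5 := congrArg norm (eq_neg_of_add_eq_zero_right c1)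
  rw [norm_neg, Complex.norm_real, Real.norm_eq_abs, abs_of_pos hP] at c5
  refine absurd hω (not_lt.2 (c5.le.trans ((norm_sum_le _ _).trans (le_of_eq ?_))))
  refine sum_congr rfl fun M _ => ?_
  rw [norm_mul, norm_prod, AddChar.norm_apply, mul_one]
end

theorem result (c : ℝ) (hc : 0 < c) : ∃ μ : ℕ, ∀ (F : Type) [Field F] [Fintype F] (n : ℕ), 1 ≤ n →
    ∀ X : Fin μ → Set (Matrix (Fin n) (Fin n) F),
      (∀ i, (Fintype.card F : ℝ) ^ (c * (n : ℝ) ^ 2) ≤ (X i).ncard) →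
      ∃ a b : Fin μ → GL (Fin n) F, ∀ y : Matrix (Fin n) (Fin n) F,
        ∃ x : Fin μ → Matrix (Fin n) (Fin n) F, (∀ i, x i ∈ X i) ∧
          ∑ i, (a i).val * x i * (b i).val = y := by
  classical
  obtain ⟨B, hB⟩ := exists_nat_ge ((32 : ℝ) ^ (8 / c))
  obtain ⟨K, hK⟩ := exists_nat_ge (64 / c)
  refine ⟨B ^ B + K, fun F _ _ n hn X hX => ?_⟩
  suffices h : ∃ a b, SS X a b = Set.univ by
    obtain ⟨a, b, h⟩ := h
    exact ⟨a, b, fun y => (Set.eq_univ_iff_forall.1 h y)⟩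
  have hq : (1 : ℝ) < Fintype.card F := by exact_mod_cast Fintype.one_lt_card
  have hq0 : (0 : ℝ) < Fintype.card F := by linarith
  have hn' : (1 : ℝ) ≤ n := by exact_mod_cast hn
  set t : ℝ := (Fintype.card F : ℝ) ^ (c * n / 16) with ht
  have tp : ∀ k : ℕ, t ^ k = (Fintype.card F : ℝ) ^ (c * n / 16 * k) := fun k => by
    rw [ht, Real.rpow_mul_natCast hq0.le]
  by_cases h : 32 ≤ t ^ 2
  · have := big hn _ (fun i => (Set.toFinite (X i)).toFinset) ⌊c * n / 4⌋₊ t (by positivity) h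
      (fun i => ?_) ?_ ?_
    · simpa only [Set.Finite.coe_toFinset] using this
    · rw [← Set.ncard_eq_toFinset_card, ← pow_mul, tp, ← Real.rpow_natCast, ← Real.rpow_add hq0]
      refine le_trans (Real.rpow_le_rpow_of_exponent_le hq.le ?_) (hX i)
      have := Nat.floor_le (by positivity : 0 ≤ c * n / 4)
      push_cast
      nlinarith [mul_le_mul_of_nonneg_left this (by positivity : (0 : ℝ) ≤ 2 * n),
        (by positivity : 0 ≤ c * (n : ℝ) ^ 2)]
    · rw [tp, ← Real.rpow_natCast]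
      refine Real.rpow_le_rpow_of_exponent_le hq.le ?_
      have := Nat.lt_floor_add_one (c * n / 4)
      push_cast
      linarith
    · rw [tp, ← Real.rpow_natCast]
      refine Real.rpow_le_rpow_of_exponent_le hq.le ?_
      rw [div_le_iff₀ hc] at hK
      push_cast
      have : (0 : ℝ) ≤ c * n * (B : ℝ) ^ B := by positivity
      nlinarith
  · have h1 : Fintype.card F ^ n ≤ B := by
      have e : (Fintype.card F : ℝ) ^ n = (t ^ 2) ^ (8 / c) := by
        rw [tp, ← Real.rpow_mul hq0.le, ← Real.rpow_natCast]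
        congr 1; field_simp; norm_num
      have := Real.rpow_le_rpow (by positivity) (not_le.1 h).le (by positivity : 0 ≤ 8 / c)
      rw [← e] at this
      exact_mod_cast this.trans hB
    have h2 : n < Fintype.card F ^ n := Nat.lt_pow_self Fintype.one_lt_card
    have h3 : Nat.card (Mat n F) ≤ B ^ B := by
      rw [Nat.card_eq_fintype_card, card_mat, pow_mul]
      exact (Nat.pow_le_pow_left h1 n).trans (Nat.pow_le_pow_right (by omega) (by omega))
    obtain ⟨a, b, h4⟩ := grow _ X fun i => by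
      have := (Real.one_lt_rpow hq (by positivity)).trans_le (hX i)
      exact_mod_cast this
    refine ⟨a, b, h4.resolve_right fun h5 => ?_⟩
    have := Set.ncard_le_card (SS X a b)
    omega

end Pool.Agent.Results.MP_725651_al.Cover
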